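import Pool.Agent.Gen.TY.FR.B00
import Pool.Agent.Gen.TY.FR.B01
import Pool.Agent.Gen.TY.FR.B02
import Pool.Agent.Gen.TY.FR.B03
import Pool.Agent.Gen.TY.FR.B04
import Pool.Agent.Gen.TY.FR.B05
import Pool.Agent.Gen.TY.FR.B06
import Pool.Agent.Gen.TY.FR.B07
import Pool.Agent.Gen.TY.FR.B08
import Pool.Agent.Gen.TY.FR.B09
import Pool.Agent.Gen.TY.FR.B10
import Pool.Agent.Gen.TY.FR.B11
import Pool.Agent.Gen.TY.FR.B12
import Pool.Agent.Gen.TY.FR.B13

/-!
MP_8ee768_co, project TH-Y', stage F: the stage follows from its 5716 frames.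

`frAll` = the reduced classes with their frames (in blocks `fb_0, ..`), `stF_fin` = the stage.
-/

set_option autoImplicit false
set_option maxRecDepth 100000

namespace Pool.Agent.Gen.TY.FR

open Pool.Agent.Helper79.CV
open Pool.Agent.Helper4.CV (StF)

/-- class, representative, frames, certificates -/
abbrev Dat := ℕ × ℕ × List ℕ × List ℕ

/-- block 0 -/
def db_0 : List Dat :=
  [(0, rt_0, fr_0, cs_0),
   (1, rt_1, fr_1, cs_1),
   (2, rt_2, fr_2, cs_2),
   (3, rt_3, fr_3, cs_3),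
   (4, rt_4, fr_4, cs_4),
   (5, rt_5, fr_5, cs_5),
   (6, rt_6, fr_6, cs_6),
   (7, rt_7, fr_7, cs_7),
   (8, rt_8, fr_8, cs_8),
   (9, rt_9, fr_9, cs_9),
   (10, rt_10, fr_10, cs_10),
   (11, rt_11, fr_11, cs_11),
   (12, rt_12, fr_12, cs_12),
   (33, rt_33, fr_33, cs_33),
   (34, rt_34, fr_34, cs_34),
   (35, rt_35, fr_35, cs_35),
   (36, rt_36, fr_36, cs_36),
   (37, rt_37, fr_37, cs_37),
   (38, rt_38, fr_38, cs_38),
   (212, rt_212, fr_212, cs_212)]

theorem db_ok_0 : ∀ d ∈ db_0, rootOK2 d.2.1 d.2.2.1 d.2.2.2 = true :=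
  List.forall_mem_cons.2 ⟨ok_0,
  List.forall_mem_cons.2 ⟨ok_1,
  List.forall_mem_cons.2 ⟨ok_2,
  List.forall_mem_cons.2 ⟨ok_3,
  List.forall_mem_cons.2 ⟨ok_4,
  List.forall_mem_cons.2 ⟨ok_5,
  List.forall_mem_cons.2 ⟨ok_6,
  List.forall_mem_cons.2 ⟨ok_7,
  List.forall_mem_cons.2 ⟨ok_8,
  List.forall_mem_cons.2 ⟨ok_9,
  List.forall_mem_cons.2 ⟨ok_10,
  List.forall_mem_cons.2 ⟨ok_11,
  List.forall_mem_cons.2 ⟨ok_12,
  List.forall_mem_cons.2 ⟨ok_33,
  List.forall_mem_cons.2 ⟨ok_34,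
  List.forall_mem_cons.2 ⟨ok_35,
  List.forall_mem_cons.2 ⟨ok_36,
  List.forall_mem_cons.2 ⟨ok_37,
  List.forall_mem_cons.2 ⟨ok_38,
  List.forall_mem_cons.2 ⟨ok_212,
  fun _ h => absurd h List.not_mem_nil⟩⟩⟩⟩⟩⟩⟩⟩⟩⟩⟩⟩⟩⟩⟩⟩⟩⟩⟩⟩

/-- class and frames, block 0 -/
def fb_0 : List (ℕ × List ℕ) :=
  [(0, fr_0),
   (1, fr_1),
   (2, fr_2),
   (3, fr_3),
   (4, fr_4),
   (5, fr_5),
   (6, fr_6),
   (7, fr_7),
   (8, fr_8),
   (9, fr_9),
   (10, fr_10),
   (11, fr_11),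
   (12, fr_12),
   (33, fr_33),
   (34, fr_34),
   (35, fr_35),
   (36, fr_36),
   (37, fr_37),
   (38, fr_38),
   (212, fr_212)]

/-- block 1 -/
def db_1 : List Dat :=
  [(213, rt_213, fr_213, cs_213),
   (214, rt_214, fr_214, cs_214),
   (215, rt_215, fr_215, cs_215),
   (216, rt_216, fr_216, cs_216),
   (217, rt_217, fr_217, cs_217),
   (218, rt_218, fr_218, cs_218),
   (219, rt_219, fr_219, cs_219),
   (220, rt_220, fr_220, cs_220),
   (221, rt_221, fr_221, cs_221),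
   (222, rt_222, fr_222, cs_222),
   (223, rt_223, fr_223, cs_223),
   (224, rt_224, fr_224, cs_224),
   (225, rt_225, fr_225, cs_225),
   (226, rt_226, fr_226, cs_226),
   (227, rt_227, fr_227, cs_227),
   (228, rt_228, fr_228, cs_228),
   (229, rt_229, fr_229, cs_229),
   (230, rt_230, fr_230, cs_230),
   (231, rt_231, fr_231, cs_231),
   (232, rt_232, fr_232, cs_232)]

theorem db_ok_1 : ∀ d ∈ db_1, rootOK2 d.2.1 d.2.2.1 d.2.2.2 = true :=
  List.forall_mem_cons.2 ⟨ok_213,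
  List.forall_mem_cons.2 ⟨ok_214,
  List.forall_mem_cons.2 ⟨ok_215,
  List.forall_mem_cons.2 ⟨ok_216,
  List.forall_mem_cons.2 ⟨ok_217,
  List.forall_mem_cons.2 ⟨ok_218,
  List.forall_mem_cons.2 ⟨ok_219,
  List.forall_mem_cons.2 ⟨ok_220,
  List.forall_mem_cons.2 ⟨ok_221,
  List.forall_mem_cons.2 ⟨ok_222,
  List.forall_mem_cons.2 ⟨ok_223,
  List.forall_mem_cons.2 ⟨ok_224,
  List.forall_mem_cons.2 ⟨ok_225,
  List.forall_mem_cons.2 ⟨ok_226,
  List.forall_mem_cons.2 ⟨ok_227,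
  List.forall_mem_cons.2 ⟨ok_228,
  List.forall_mem_cons.2 ⟨ok_229,
  List.forall_mem_cons.2 ⟨ok_230,
  List.forall_mem_cons.2 ⟨ok_231,
  List.forall_mem_cons.2 ⟨ok_232,
  fun _ h => absurd h List.not_mem_nil⟩⟩⟩⟩⟩⟩⟩⟩⟩⟩⟩⟩⟩⟩⟩⟩⟩⟩⟩⟩

/-- class and frames, block 1 -/
def fb_1 : List (ℕ × List ℕ) :=
  [(213, fr_213),
   (214, fr_214),
   (215, fr_215),
   (216, fr_216),
   (217, fr_217),
   (218, fr_218),
   (219, fr_219),
   (220, fr_220),
   (221, fr_221),
   (222, fr_222),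
   (223, fr_223),
   (224, fr_224),
   (225, fr_225),
   (226, fr_226),
   (227, fr_227),
   (228, fr_228),
   (229, fr_229),
   (230, fr_230),
   (231, fr_231),
   (232, fr_232)]

/-- block 2 -/
def db_2 : List Dat :=
  [(233, rt_233, fr_233, cs_233),
   (234, rt_234, fr_234, cs_234),
   (235, rt_235, fr_235, cs_235),
   (236, rt_236, fr_236, cs_236),
   (237, rt_237, fr_237, cs_237),
   (238, rt_238, fr_238, cs_238),
   (239, rt_239, fr_239, cs_239),
   (240, rt_240, fr_240, cs_240),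
   (241, rt_241, fr_241, cs_241),
   (242, rt_242, fr_242, cs_242),
   (243, rt_243, fr_243, cs_243),
   (244, rt_244, fr_244, cs_244),
   (245, rt_245, fr_245, cs_245),
   (246, rt_246, fr_246, cs_246),
   (247, rt_247, fr_247, cs_247),
   (248, rt_248, fr_248, cs_248),
   (249, rt_249, fr_249, cs_249),
   (250, rt_250, fr_250, cs_250),
   (251, rt_251, fr_251, cs_251),
   (252, rt_252, fr_252, cs_252)]

theorem db_ok_2 : ∀ d ∈ db_2, rootOK2 d.2.1 d.2.2.1 d.2.2.2 = true :=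
  List.forall_mem_cons.2 ⟨ok_233,
  List.forall_mem_cons.2 ⟨ok_234,
  List.forall_mem_cons.2 ⟨ok_235,
  List.forall_mem_cons.2 ⟨ok_236,
  List.forall_mem_cons.2 ⟨ok_237,
  List.forall_mem_cons.2 ⟨ok_238,
  List.forall_mem_cons.2 ⟨ok_239,
  List.forall_mem_cons.2 ⟨ok_240,
  List.forall_mem_cons.2 ⟨ok_241,
  List.forall_mem_cons.2 ⟨ok_242,
  List.forall_mem_cons.2 ⟨ok_243,
  List.forall_mem_cons.2 ⟨ok_244,
  List.forall_mem_cons.2 ⟨ok_245,
  List.forall_mem_cons.2 ⟨ok_246,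
  List.forall_mem_cons.2 ⟨ok_247,
  List.forall_mem_cons.2 ⟨ok_248,
  List.forall_mem_cons.2 ⟨ok_249,
  List.forall_mem_cons.2 ⟨ok_250,
  List.forall_mem_cons.2 ⟨ok_251,
  List.forall_mem_cons.2 ⟨ok_252,
  fun _ h => absurd h List.not_mem_nil⟩⟩⟩⟩⟩⟩⟩⟩⟩⟩⟩⟩⟩⟩⟩⟩⟩⟩⟩⟩

/-- class and frames, block 2 -/
def fb_2 : List (ℕ × List ℕ) :=
  [(233, fr_233),
   (234, fr_234),
   (235, fr_235),
   (236, fr_236),
   (237, fr_237),
   (238, fr_238),
   (239, fr_239),
   (240, fr_240),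
   (241, fr_241),
   (242, fr_242),
   (243, fr_243),
   (244, fr_244),
   (245, fr_245),
   (246, fr_246),
   (247, fr_247),
   (248, fr_248),
   (249, fr_249),
   (250, fr_250),
   (251, fr_251),
   (252, fr_252)]

/-- block 3 -/
def db_3 : List Dat :=
  [(253, rt_253, fr_253, cs_253),
   (254, rt_254, fr_254, cs_254),
   (255, rt_255, fr_255, cs_255),
   (256, rt_256, fr_256, cs_256),
   (257, rt_257, fr_257, cs_257),
   (258, rt_258, fr_258, cs_258),
   (259, rt_259, fr_259, cs_259),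
   (260, rt_260, fr_260, cs_260),
   (261, rt_261, fr_261, cs_261),
   (262, rt_262, fr_262, cs_262),
   (263, rt_263, fr_263, cs_263),
   (264, rt_264, fr_264, cs_264),
   (265, rt_265, fr_265, cs_265),
   (266, rt_266, fr_266, cs_266),
   (267, rt_267, fr_267, cs_267),
   (268, rt_268, fr_268, cs_268),
   (269, rt_269, fr_269, cs_269),
   (270, rt_270, fr_270, cs_270),
   (271, rt_271, fr_271, cs_271),
   (272, rt_272, fr_272, cs_272)]

theorem db_ok_3 : ∀ d ∈ db_3, rootOK2 d.2.1 d.2.2.1 d.2.2.2 = true :=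
  List.forall_mem_cons.2 ⟨ok_253,
  List.forall_mem_cons.2 ⟨ok_254,
  List.forall_mem_cons.2 ⟨ok_255,
  List.forall_mem_cons.2 ⟨ok_256,
  List.forall_mem_cons.2 ⟨ok_257,
  List.forall_mem_cons.2 ⟨ok_258,
  List.forall_mem_cons.2 ⟨ok_259,
  List.forall_mem_cons.2 ⟨ok_260,
  List.forall_mem_cons.2 ⟨ok_261,
  List.forall_mem_cons.2 ⟨ok_262,
  List.forall_mem_cons.2 ⟨ok_263,
  List.forall_mem_cons.2 ⟨ok_264,
  List.forall_mem_cons.2 ⟨ok_265,
  List.forall_mem_cons.2 ⟨ok_266,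
  List.forall_mem_cons.2 ⟨ok_267,
  List.forall_mem_cons.2 ⟨ok_268,
  List.forall_mem_cons.2 ⟨ok_269,
  List.forall_mem_cons.2 ⟨ok_270,
  List.forall_mem_cons.2 ⟨ok_271,
  List.forall_mem_cons.2 ⟨ok_272,
  fun _ h => absurd h List.not_mem_nil⟩⟩⟩⟩⟩⟩⟩⟩⟩⟩⟩⟩⟩⟩⟩⟩⟩⟩⟩⟩

/-- class and frames, block 3 -/
def fb_3 : List (ℕ × List ℕ) :=
  [(253, fr_253),
   (254, fr_254),
   (255, fr_255),
   (256, fr_256),
   (257, fr_257),
   (258, fr_258),
   (259, fr_259),
   (260, fr_260),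
   (261, fr_261),
   (262, fr_262),
   (263, fr_263),
   (264, fr_264),
   (265, fr_265),
   (266, fr_266),
   (267, fr_267),
   (268, fr_268),
   (269, fr_269),
   (270, fr_270),
   (271, fr_271),
   (272, fr_272)]

/-- block 4 -/
def db_4 : List Dat :=
  [(273, rt_273, fr_273, cs_273),
   (274, rt_274, fr_274, cs_274),
   (275, rt_275, fr_275, cs_275),
   (276, rt_276, fr_276, cs_276),
   (277, rt_277, fr_277, cs_277),
   (278, rt_278, fr_278, cs_278),
   (279, rt_279, fr_279, cs_279),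
   (280, rt_280, fr_280, cs_280),
   (281, rt_281, fr_281, cs_281),
   (282, rt_282, fr_282, cs_282),
   (283, rt_283, fr_283, cs_283),
   (284, rt_284, fr_284, cs_284),
   (285, rt_285, fr_285, cs_285),
   (286, rt_286, fr_286, cs_286),
   (287, rt_287, fr_287, cs_287),
   (288, rt_288, fr_288, cs_288),
   (289, rt_289, fr_289, cs_289),
   (290, rt_290, fr_290, cs_290),
   (291, rt_291, fr_291, cs_291),
   (292, rt_292, fr_292, cs_292)]

theorem db_ok_4 : ∀ d ∈ db_4, rootOK2 d.2.1 d.2.2.1 d.2.2.2 = true :=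
  List.forall_mem_cons.2 ⟨ok_273,
  List.forall_mem_cons.2 ⟨ok_274,
  List.forall_mem_cons.2 ⟨ok_275,
  List.forall_mem_cons.2 ⟨ok_276,
  List.forall_mem_cons.2 ⟨ok_277,
  List.forall_mem_cons.2 ⟨ok_278,
  List.forall_mem_cons.2 ⟨ok_279,
  List.forall_mem_cons.2 ⟨ok_280,
  List.forall_mem_cons.2 ⟨ok_281,
  List.forall_mem_cons.2 ⟨ok_282,
  List.forall_mem_cons.2 ⟨ok_283,
  List.forall_mem_cons.2 ⟨ok_284,
  List.forall_mem_cons.2 ⟨ok_285,
  List.forall_mem_cons.2 ⟨ok_286,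
  List.forall_mem_cons.2 ⟨ok_287,
  List.forall_mem_cons.2 ⟨ok_288,
  List.forall_mem_cons.2 ⟨ok_289,
  List.forall_mem_cons.2 ⟨ok_290,
  List.forall_mem_cons.2 ⟨ok_291,
  List.forall_mem_cons.2 ⟨ok_292,
  fun _ h => absurd h List.not_mem_nil⟩⟩⟩⟩⟩⟩⟩⟩⟩⟩⟩⟩⟩⟩⟩⟩⟩⟩⟩⟩

/-- class and frames, block 4 -/
def fb_4 : List (ℕ × List ℕ) :=
  [(273, fr_273),
   (274, fr_274),
   (275, fr_275),
   (276, fr_276),
   (277, fr_277),
   (278, fr_278),
   (279, fr_279),
   (280, fr_280),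
   (281, fr_281),
   (282, fr_282),
   (283, fr_283),
   (284, fr_284),
   (285, fr_285),
   (286, fr_286),
   (287, fr_287),
   (288, fr_288),
   (289, fr_289),
   (290, fr_290),
   (291, fr_291),
   (292, fr_292)]

/-- block 5 -/
def db_5 : List Dat :=
  [(293, rt_293, fr_293, cs_293),
   (294, rt_294, fr_294, cs_294),
   (295, rt_295, fr_295, cs_295),
   (296, rt_296, fr_296, cs_296),
   (297, rt_297, fr_297, cs_297),
   (298, rt_298, fr_298, cs_298),
   (299, rt_299, fr_299, cs_299),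
   (300, rt_300, fr_300, cs_300),
   (301, rt_301, fr_301, cs_301),
   (302, rt_302, fr_302, cs_302),
   (303, rt_303, fr_303, cs_303),
   (304, rt_304, fr_304, cs_304),
   (305, rt_305, fr_305, cs_305),
   (306, rt_306, fr_306, cs_306),
   (307, rt_307, fr_307, cs_307),
   (308, rt_308, fr_308, cs_308),
   (309, rt_309, fr_309, cs_309),
   (310, rt_310, fr_310, cs_310),
   (311, rt_311, fr_311, cs_311),
   (312, rt_312, fr_312, cs_312)]

theorem db_ok_5 : ∀ d ∈ db_5, rootOK2 d.2.1 d.2.2.1 d.2.2.2 = true :=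
  List.forall_mem_cons.2 ⟨ok_293,
  List.forall_mem_cons.2 ⟨ok_294,
  List.forall_mem_cons.2 ⟨ok_295,
  List.forall_mem_cons.2 ⟨ok_296,
  List.forall_mem_cons.2 ⟨ok_297,
  List.forall_mem_cons.2 ⟨ok_298,
  List.forall_mem_cons.2 ⟨ok_299,
  List.forall_mem_cons.2 ⟨ok_300,
  List.forall_mem_cons.2 ⟨ok_301,
  List.forall_mem_cons.2 ⟨ok_302,
  List.forall_mem_cons.2 ⟨ok_303,
  List.forall_mem_cons.2 ⟨ok_304,
  List.forall_mem_cons.2 ⟨ok_305,
  List.forall_mem_cons.2 ⟨ok_306,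
  List.forall_mem_cons.2 ⟨ok_307,
  List.forall_mem_cons.2 ⟨ok_308,
  List.forall_mem_cons.2 ⟨ok_309,
  List.forall_mem_cons.2 ⟨ok_310,
  List.forall_mem_cons.2 ⟨ok_311,
  List.forall_mem_cons.2 ⟨ok_312,
  fun _ h => absurd h List.not_mem_nil⟩⟩⟩⟩⟩⟩⟩⟩⟩⟩⟩⟩⟩⟩⟩⟩⟩⟩⟩⟩

/-- class and frames, block 5 -/
def fb_5 : List (ℕ × List ℕ) :=
  [(293, fr_293),
   (294, fr_294),
   (295, fr_295),
   (296, fr_296),
   (297, fr_297),
   (298, fr_298),
   (299, fr_299),
   (300, fr_300),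
   (301, fr_301),
   (302, fr_302),
   (303, fr_303),
   (304, fr_304),
   (305, fr_305),
   (306, fr_306),
   (307, fr_307),
   (308, fr_308),
   (309, fr_309),
   (310, fr_310),
   (311, fr_311),
   (312, fr_312)]

/-- block 6 -/
def db_6 : List Dat :=
  [(313, rt_313, fr_313, cs_313),
   (314, rt_314, fr_314, cs_314),
   (315, rt_315, fr_315, cs_315),
   (316, rt_316, fr_316, cs_316),
   (317, rt_317, fr_317, cs_317),
   (318, rt_318, fr_318, cs_318),
   (319, rt_319, fr_319, cs_319),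
   (320, rt_320, fr_320, cs_320),
   (321, rt_321, fr_321, cs_321),
   (322, rt_322, fr_322, cs_322),
   (323, rt_323, fr_323, cs_323),
   (324, rt_324, fr_324, cs_324),
   (325, rt_325, fr_325, cs_325),
   (326, rt_326, fr_326, cs_326),
   (327, rt_327, fr_327, cs_327),
   (328, rt_328, fr_328, cs_328),
   (329, rt_329, fr_329, cs_329),
   (330, rt_330, fr_330, cs_330),
   (331, rt_331, fr_331, cs_331),
   (332, rt_332, fr_332, cs_332)]

theorem db_ok_6 : ∀ d ∈ db_6, rootOK2 d.2.1 d.2.2.1 d.2.2.2 = true :=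
  List.forall_mem_cons.2 ⟨ok_313,
  List.forall_mem_cons.2 ⟨ok_314,
  List.forall_mem_cons.2 ⟨ok_315,
  List.forall_mem_cons.2 ⟨ok_316,
  List.forall_mem_cons.2 ⟨ok_317,
  List.forall_mem_cons.2 ⟨ok_318,
  List.forall_mem_cons.2 ⟨ok_319,
  List.forall_mem_cons.2 ⟨ok_320,
  List.forall_mem_cons.2 ⟨ok_321,
  List.forall_mem_cons.2 ⟨ok_322,
  List.forall_mem_cons.2 ⟨ok_323,
  List.forall_mem_cons.2 ⟨ok_324,
  List.forall_mem_cons.2 ⟨ok_325,
  List.forall_mem_cons.2 ⟨ok_326,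
  List.forall_mem_cons.2 ⟨ok_327,
  List.forall_mem_cons.2 ⟨ok_328,
  List.forall_mem_cons.2 ⟨ok_329,
  List.forall_mem_cons.2 ⟨ok_330,
  List.forall_mem_cons.2 ⟨ok_331,
  List.forall_mem_cons.2 ⟨ok_332,
  fun _ h => absurd h List.not_mem_nil⟩⟩⟩⟩⟩⟩⟩⟩⟩⟩⟩⟩⟩⟩⟩⟩⟩⟩⟩⟩

/-- class and frames, block 6 -/
def fb_6 : List (ℕ × List ℕ) :=
  [(313, fr_313),
   (314, fr_314),
   (315, fr_315),
   (316, fr_316),
   (317, fr_317),
   (318, fr_318),
   (319, fr_319),
   (320, fr_320),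
   (321, fr_321),
   (322, fr_322),
   (323, fr_323),
   (324, fr_324),
   (325, fr_325),
   (326, fr_326),
   (327, fr_327),
   (328, fr_328),
   (329, fr_329),
   (330, fr_330),
   (331, fr_331),
   (332, fr_332)]

/-- block 7 -/
def db_7 : List Dat :=
  [(333, rt_333, fr_333, cs_333),
   (334, rt_334, fr_334, cs_334),
   (335, rt_335, fr_335, cs_335),
   (336, rt_336, fr_336, cs_336),
   (337, rt_337, fr_337, cs_337),
   (338, rt_338, fr_338, cs_338),
   (339, rt_339, fr_339, cs_339),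
   (340, rt_340, fr_340, cs_340),
   (341, rt_341, fr_341, cs_341),
   (342, rt_342, fr_342, cs_342),
   (343, rt_343, fr_343, cs_343),
   (344, rt_344, fr_344, cs_344),
   (345, rt_345, fr_345, cs_345),
   (346, rt_346, fr_346, cs_346),
   (347, rt_347, fr_347, cs_347),
   (348, rt_348, fr_348, cs_348),
   (349, rt_349, fr_349, cs_349),
   (350, rt_350, fr_350, cs_350),
   (351, rt_351, fr_351, cs_351),
   (352, rt_352, fr_352, cs_352)]

theorem db_ok_7 : ∀ d ∈ db_7, rootOK2 d.2.1 d.2.2.1 d.2.2.2 = true :=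
  List.forall_mem_cons.2 ⟨ok_333,
  List.forall_mem_cons.2 ⟨ok_334,
  List.forall_mem_cons.2 ⟨ok_335,
  List.forall_mem_cons.2 ⟨ok_336,
  List.forall_mem_cons.2 ⟨ok_337,
  List.forall_mem_cons.2 ⟨ok_338,
  List.forall_mem_cons.2 ⟨ok_339,
  List.forall_mem_cons.2 ⟨ok_340,
  List.forall_mem_cons.2 ⟨ok_341,
  List.forall_mem_cons.2 ⟨ok_342,
  List.forall_mem_cons.2 ⟨ok_343,
  List.forall_mem_cons.2 ⟨ok_344,
  List.forall_mem_cons.2 ⟨ok_345,
  List.forall_mem_cons.2 ⟨ok_346,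
  List.forall_mem_cons.2 ⟨ok_347,
  List.forall_mem_cons.2 ⟨ok_348,
  List.forall_mem_cons.2 ⟨ok_349,
  List.forall_mem_cons.2 ⟨ok_350,
  List.forall_mem_cons.2 ⟨ok_351,
  List.forall_mem_cons.2 ⟨ok_352,
  fun _ h => absurd h List.not_mem_nil⟩⟩⟩⟩⟩⟩⟩⟩⟩⟩⟩⟩⟩⟩⟩⟩⟩⟩⟩⟩

/-- class and frames, block 7 -/
def fb_7 : List (ℕ × List ℕ) :=
  [(333, fr_333),
   (334, fr_334),
   (335, fr_335),
   (336, fr_336),
   (337, fr_337),
   (338, fr_338),
   (339, fr_339),
   (340, fr_340),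
   (341, fr_341),
   (342, fr_342),
   (343, fr_343),
   (344, fr_344),
   (345, fr_345),
   (346, fr_346),
   (347, fr_347),
   (348, fr_348),
   (349, fr_349),
   (350, fr_350),
   (351, fr_351),
   (352, fr_352)]

/-- block 8 -/
def db_8 : List Dat :=
  [(353, rt_353, fr_353, cs_353),
   (354, rt_354, fr_354, cs_354),
   (355, rt_355, fr_355, cs_355),
   (356, rt_356, fr_356, cs_356),
   (357, rt_357, fr_357, cs_357),
   (358, rt_358, fr_358, cs_358),
   (359, rt_359, fr_359, cs_359),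
   (360, rt_360, fr_360, cs_360),
   (361, rt_361, fr_361, cs_361),
   (362, rt_362, fr_362, cs_362),
   (363, rt_363, fr_363, cs_363),
   (364, rt_364, fr_364, cs_364),
   (365, rt_365, fr_365, cs_365),
   (366, rt_366, fr_366, cs_366),
   (367, rt_367, fr_367, cs_367),
   (368, rt_368, fr_368, cs_368),
   (369, rt_369, fr_369, cs_369),
   (370, rt_370, fr_370, cs_370),
   (371, rt_371, fr_371, cs_371),
   (372, rt_372, fr_372, cs_372)]

theorem db_ok_8 : ∀ d ∈ db_8, rootOK2 d.2.1 d.2.2.1 d.2.2.2 = true :=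
  List.forall_mem_cons.2 ⟨ok_353,
  List.forall_mem_cons.2 ⟨ok_354,
  List.forall_mem_cons.2 ⟨ok_355,
  List.forall_mem_cons.2 ⟨ok_356,
  List.forall_mem_cons.2 ⟨ok_357,
  List.forall_mem_cons.2 ⟨ok_358,
  List.forall_mem_cons.2 ⟨ok_359,
  List.forall_mem_cons.2 ⟨ok_360,
  List.forall_mem_cons.2 ⟨ok_361,
  List.forall_mem_cons.2 ⟨ok_362,
  List.forall_mem_cons.2 ⟨ok_363,
  List.forall_mem_cons.2 ⟨ok_364,
  List.forall_mem_cons.2 ⟨ok_365,
  List.forall_mem_cons.2 ⟨ok_366,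
  List.forall_mem_cons.2 ⟨ok_367,
  List.forall_mem_cons.2 ⟨ok_368,
  List.forall_mem_cons.2 ⟨ok_369,
  List.forall_mem_cons.2 ⟨ok_370,
  List.forall_mem_cons.2 ⟨ok_371,
  List.forall_mem_cons.2 ⟨ok_372,
  fun _ h => absurd h List.not_mem_nil⟩⟩⟩⟩⟩⟩⟩⟩⟩⟩⟩⟩⟩⟩⟩⟩⟩⟩⟩⟩

/-- class and frames, block 8 -/
def fb_8 : List (ℕ × List ℕ) :=
  [(353, fr_353),
   (354, fr_354),
   (355, fr_355),
   (356, fr_356),
   (357, fr_357),
   (358, fr_358),
   (359, fr_359),
   (360, fr_360),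
   (361, fr_361),
   (362, fr_362),
   (363, fr_363),
   (364, fr_364),
   (365, fr_365),
   (366, fr_366),
   (367, fr_367),
   (368, fr_368),
   (369, fr_369),
   (370, fr_370),
   (371, fr_371),
   (372, fr_372)]

/-- block 9 -/
def db_9 : List Dat :=
  [(373, rt_373, fr_373, cs_373),
   (374, rt_374, fr_374, cs_374),
   (375, rt_375, fr_375, cs_375),
   (376, rt_376, fr_376, cs_376),
   (377, rt_377, fr_377, cs_377),
   (378, rt_378, fr_378, cs_378),
   (379, rt_379, fr_379, cs_379),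
   (380, rt_380, fr_380, cs_380),
   (381, rt_381, fr_381, cs_381),
   (382, rt_382, fr_382, cs_382),
   (383, rt_383, fr_383, cs_383),
   (384, rt_384, fr_384, cs_384),
   (385, rt_385, fr_385, cs_385),
   (386, rt_386, fr_386, cs_386),
   (387, rt_387, fr_387, cs_387),
   (388, rt_388, fr_388, cs_388),
   (389, rt_389, fr_389, cs_389),
   (390, rt_390, fr_390, cs_390),
   (391, rt_391, fr_391, cs_391),
   (392, rt_392, fr_392, cs_392)]

theorem db_ok_9 : ∀ d ∈ db_9, rootOK2 d.2.1 d.2.2.1 d.2.2.2 = true :=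
  List.forall_mem_cons.2 ⟨ok_373,
  List.forall_mem_cons.2 ⟨ok_374,
  List.forall_mem_cons.2 ⟨ok_375,
  List.forall_mem_cons.2 ⟨ok_376,
  List.forall_mem_cons.2 ⟨ok_377,
  List.forall_mem_cons.2 ⟨ok_378,
  List.forall_mem_cons.2 ⟨ok_379,
  List.forall_mem_cons.2 ⟨ok_380,
  List.forall_mem_cons.2 ⟨ok_381,
  List.forall_mem_cons.2 ⟨ok_382,
  List.forall_mem_cons.2 ⟨ok_383,
  List.forall_mem_cons.2 ⟨ok_384,
  List.forall_mem_cons.2 ⟨ok_385,
  List.forall_mem_cons.2 ⟨ok_386,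
  List.forall_mem_cons.2 ⟨ok_387,
  List.forall_mem_cons.2 ⟨ok_388,
  List.forall_mem_cons.2 ⟨ok_389,
  List.forall_mem_cons.2 ⟨ok_390,
  List.forall_mem_cons.2 ⟨ok_391,
  List.forall_mem_cons.2 ⟨ok_392,
  fun _ h => absurd h List.not_mem_nil⟩⟩⟩⟩⟩⟩⟩⟩⟩⟩⟩⟩⟩⟩⟩⟩⟩⟩⟩⟩

/-- class and frames, block 9 -/
def fb_9 : List (ℕ × List ℕ) :=
  [(373, fr_373),
   (374, fr_374),
   (375, fr_375),
   (376, fr_376),
   (377, fr_377),
   (378, fr_378),
   (379, fr_379),
   (380, fr_380),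
   (381, fr_381),
   (382, fr_382),
   (383, fr_383),
   (384, fr_384),
   (385, fr_385),
   (386, fr_386),
   (387, fr_387),
   (388, fr_388),
   (389, fr_389),
   (390, fr_390),
   (391, fr_391),
   (392, fr_392)]

/-- block 10 -/
def db_10 : List Dat :=
  [(393, rt_393, fr_393, cs_393),
   (394, rt_394, fr_394, cs_394),
   (395, rt_395, fr_395, cs_395),
   (396, rt_396, fr_396, cs_396),
   (397, rt_397, fr_397, cs_397),
   (398, rt_398, fr_398, cs_398),
   (399, rt_399, fr_399, cs_399),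
   (400, rt_400, fr_400, cs_400),
   (401, rt_401, fr_401, cs_401),
   (402, rt_402, fr_402, cs_402),
   (403, rt_403, fr_403, cs_403),
   (404, rt_404, fr_404, cs_404),
   (405, rt_405, fr_405, cs_405),
   (406, rt_406, fr_406, cs_406),
   (407, rt_407, fr_407, cs_407),
   (408, rt_408, fr_408, cs_408),
   (409, rt_409, fr_409, cs_409),
   (410, rt_410, fr_410, cs_410),
   (411, rt_411, fr_411, cs_411),
   (412, rt_412, fr_412, cs_412)]

theorem db_ok_10 : ∀ d ∈ db_10, rootOK2 d.2.1 d.2.2.1 d.2.2.2 = true :=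
  List.forall_mem_cons.2 ⟨ok_393,
  List.forall_mem_cons.2 ⟨ok_394,
  List.forall_mem_cons.2 ⟨ok_395,
  List.forall_mem_cons.2 ⟨ok_396,
  List.forall_mem_cons.2 ⟨ok_397,
  List.forall_mem_cons.2 ⟨ok_398,
  List.forall_mem_cons.2 ⟨ok_399,
  List.forall_mem_cons.2 ⟨ok_400,
  List.forall_mem_cons.2 ⟨ok_401,
  List.forall_mem_cons.2 ⟨ok_402,
  List.forall_mem_cons.2 ⟨ok_403,
  List.forall_mem_cons.2 ⟨ok_404,
  List.forall_mem_cons.2 ⟨ok_405,
  List.forall_mem_cons.2 ⟨ok_406,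
  List.forall_mem_cons.2 ⟨ok_407,
  List.forall_mem_cons.2 ⟨ok_408,
  List.forall_mem_cons.2 ⟨ok_409,
  List.forall_mem_cons.2 ⟨ok_410,
  List.forall_mem_cons.2 ⟨ok_411,
  List.forall_mem_cons.2 ⟨ok_412,
  fun _ h => absurd h List.not_mem_nil⟩⟩⟩⟩⟩⟩⟩⟩⟩⟩⟩⟩⟩⟩⟩⟩⟩⟩⟩⟩

/-- class and frames, block 10 -/
def fb_10 : List (ℕ × List ℕ) :=
  [(393, fr_393),
   (394, fr_394),
   (395, fr_395),
   (396, fr_396),
   (397, fr_397),
   (398, fr_398),
   (399, fr_399),
   (400, fr_400),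
   (401, fr_401),
   (402, fr_402),
   (403, fr_403),
   (404, fr_404),
   (405, fr_405),
   (406, fr_406),
   (407, fr_407),
   (408, fr_408),
   (409, fr_409),
   (410, fr_410),
   (411, fr_411),
   (412, fr_412)]

/-- block 11 -/
def db_11 : List Dat :=
  [(413, rt_413, fr_413, cs_413),
   (414, rt_414, fr_414, cs_414),
   (415, rt_415, fr_415, cs_415),
   (416, rt_416, fr_416, cs_416),
   (417, rt_417, fr_417, cs_417),
   (418, rt_418, fr_418, cs_418),
   (419, rt_419, fr_419, cs_419),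
   (420, rt_420, fr_420, cs_420),
   (421, rt_421, fr_421, cs_421),
   (422, rt_422, fr_422, cs_422),
   (423, rt_423, fr_423, cs_423),
   (424, rt_424, fr_424, cs_424),
   (425, rt_425, fr_425, cs_425),
   (426, rt_426, fr_426, cs_426),
   (427, rt_427, fr_427, cs_427),
   (428, rt_428, fr_428, cs_428),
   (429, rt_429, fr_429, cs_429),
   (430, rt_430, fr_430, cs_430),
   (431, rt_431, fr_431, cs_431),
   (432, rt_432, fr_432, cs_432)]

theorem db_ok_11 : ∀ d ∈ db_11, rootOK2 d.2.1 d.2.2.1 d.2.2.2 = true :=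
  List.forall_mem_cons.2 ⟨ok_413,
  List.forall_mem_cons.2 ⟨ok_414,
  List.forall_mem_cons.2 ⟨ok_415,
  List.forall_mem_cons.2 ⟨ok_416,
  List.forall_mem_cons.2 ⟨ok_417,
  List.forall_mem_cons.2 ⟨ok_418,
  List.forall_mem_cons.2 ⟨ok_419,
  List.forall_mem_cons.2 ⟨ok_420,
  List.forall_mem_cons.2 ⟨ok_421,
  List.forall_mem_cons.2 ⟨ok_422,
  List.forall_mem_cons.2 ⟨ok_423,
  List.forall_mem_cons.2 ⟨ok_424,
  List.forall_mem_cons.2 ⟨ok_425,
  List.forall_mem_cons.2 ⟨ok_426,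
  List.forall_mem_cons.2 ⟨ok_427,
  List.forall_mem_cons.2 ⟨ok_428,
  List.forall_mem_cons.2 ⟨ok_429,
  List.forall_mem_cons.2 ⟨ok_430,
  List.forall_mem_cons.2 ⟨ok_431,
  List.forall_mem_cons.2 ⟨ok_432,
  fun _ h => absurd h List.not_mem_nil⟩⟩⟩⟩⟩⟩⟩⟩⟩⟩⟩⟩⟩⟩⟩⟩⟩⟩⟩⟩

/-- class and frames, block 11 -/
def fb_11 : List (ℕ × List ℕ) :=
  [(413, fr_413),
   (414, fr_414),
   (415, fr_415),
   (416, fr_416),
   (417, fr_417),
   (418, fr_418),
   (419, fr_419),
   (420, fr_420),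
   (421, fr_421),
   (422, fr_422),
   (423, fr_423),
   (424, fr_424),
   (425, fr_425),
   (426, fr_426),
   (427, fr_427),
   (428, fr_428),
   (429, fr_429),
   (430, fr_430),
   (431, fr_431),
   (432, fr_432)]

/-- block 12 -/
def db_12 : List Dat :=
  [(433, rt_433, fr_433, cs_433),
   (434, rt_434, fr_434, cs_434),
   (435, rt_435, fr_435, cs_435),
   (436, rt_436, fr_436, cs_436),
   (437, rt_437, fr_437, cs_437),
   (438, rt_438, fr_438, cs_438),
   (439, rt_439, fr_439, cs_439),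
   (440, rt_440, fr_440, cs_440),
   (441, rt_441, fr_441, cs_441),
   (442, rt_442, fr_442, cs_442),
   (443, rt_443, fr_443, cs_443),
   (444, rt_444, fr_444, cs_444),
   (445, rt_445, fr_445, cs_445),
   (446, rt_446, fr_446, cs_446),
   (447, rt_447, fr_447, cs_447),
   (448, rt_448, fr_448, cs_448),
   (449, rt_449, fr_449, cs_449),
   (450, rt_450, fr_450, cs_450),
   (451, rt_451, fr_451, cs_451),
   (452, rt_452, fr_452, cs_452)]

theorem db_ok_12 : ∀ d ∈ db_12, rootOK2 d.2.1 d.2.2.1 d.2.2.2 = true :=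
  List.forall_mem_cons.2 ⟨ok_433,
  List.forall_mem_cons.2 ⟨ok_434,
  List.forall_mem_cons.2 ⟨ok_435,
  List.forall_mem_cons.2 ⟨ok_436,
  List.forall_mem_cons.2 ⟨ok_437,
  List.forall_mem_cons.2 ⟨ok_438,
  List.forall_mem_cons.2 ⟨ok_439,
  List.forall_mem_cons.2 ⟨ok_440,
  List.forall_mem_cons.2 ⟨ok_441,
  List.forall_mem_cons.2 ⟨ok_442,
  List.forall_mem_cons.2 ⟨ok_443,
  List.forall_mem_cons.2 ⟨ok_444,
  List.forall_mem_cons.2 ⟨ok_445,
  List.forall_mem_cons.2 ⟨ok_446,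
  List.forall_mem_cons.2 ⟨ok_447,
  List.forall_mem_cons.2 ⟨ok_448,
  List.forall_mem_cons.2 ⟨ok_449,
  List.forall_mem_cons.2 ⟨ok_450,
  List.forall_mem_cons.2 ⟨ok_451,
  List.forall_mem_cons.2 ⟨ok_452,
  fun _ h => absurd h List.not_mem_nil⟩⟩⟩⟩⟩⟩⟩⟩⟩⟩⟩⟩⟩⟩⟩⟩⟩⟩⟩⟩

/-- class and frames, block 12 -/
def fb_12 : List (ℕ × List ℕ) :=
  [(433, fr_433),
   (434, fr_434),
   (435, fr_435),
   (436, fr_436),
   (437, fr_437),
   (438, fr_438),
   (439, fr_439),
   (440, fr_440),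
   (441, fr_441),
   (442, fr_442),
   (443, fr_443),
   (444, fr_444),
   (445, fr_445),
   (446, fr_446),
   (447, fr_447),
   (448, fr_448),
   (449, fr_449),
   (450, fr_450),
   (451, fr_451),
   (452, fr_452)]

/-- block 13 -/
def db_13 : List Dat :=
  [(453, rt_453, fr_453, cs_453),
   (454, rt_454, fr_454, cs_454),
   (455, rt_455, fr_455, cs_455),
   (456, rt_456, fr_456, cs_456),
   (457, rt_457, fr_457, cs_457),
   (458, rt_458, fr_458, cs_458),
   (459, rt_459, fr_459, cs_459),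
   (460, rt_460, fr_460, cs_460),
   (461, rt_461, fr_461, cs_461),
   (462, rt_462, fr_462, cs_462),
   (463, rt_463, fr_463, cs_463),
   (464, rt_464, fr_464, cs_464),
   (465, rt_465, fr_465, cs_465)]

theorem db_ok_13 : ∀ d ∈ db_13, rootOK2 d.2.1 d.2.2.1 d.2.2.2 = true :=
  List.forall_mem_cons.2 ⟨ok_453,
  List.forall_mem_cons.2 ⟨ok_454,
  List.forall_mem_cons.2 ⟨ok_455,
  List.forall_mem_cons.2 ⟨ok_456,
  List.forall_mem_cons.2 ⟨ok_457,
  List.forall_mem_cons.2 ⟨ok_458,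
  List.forall_mem_cons.2 ⟨ok_459,
  List.forall_mem_cons.2 ⟨ok_460,
  List.forall_mem_cons.2 ⟨ok_461,
  List.forall_mem_cons.2 ⟨ok_462,
  List.forall_mem_cons.2 ⟨ok_463,
  List.forall_mem_cons.2 ⟨ok_464,
  List.forall_mem_cons.2 ⟨ok_465,
  fun _ h => absurd h List.not_mem_nil⟩⟩⟩⟩⟩⟩⟩⟩⟩⟩⟩⟩⟩

/-- class and frames, block 13 -/
def fb_13 : List (ℕ × List ℕ) :=
  [(453, fr_453),
   (454, fr_454),
   (455, fr_455),
   (456, fr_456),
   (457, fr_457),
   (458, fr_458),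
   (459, fr_459),
   (460, fr_460),
   (461, fr_461),
   (462, fr_462),
   (463, fr_463),
   (464, fr_464),
   (465, fr_465)]

/-- all data -/
def dAll : List Dat := db_0 ++ (db_1 ++ (db_2 ++ (db_3 ++ (db_4 ++ (db_5 ++ (db_6 ++ (db_7 ++ (db_8 ++ (db_9 ++ (db_10 ++ (db_11 ++ (db_12 ++ (db_13)))))))))))))

/-- all reduced classes with their frames -/
def frAll : List (ℕ × List ℕ) := fb_0 ++ (fb_1 ++ (fb_2 ++ (fb_3 ++ (fb_4 ++ (fb_5 ++ (fb_6 ++ (fb_7 ++ (fb_8 ++ (fb_9 ++ (fb_10 ++ (fb_11 ++ (fb_12 ++ (fb_13)))))))))))))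

theorem dAll_ok : ∀ d ∈ dAll, rootOK2 d.2.1 d.2.2.1 d.2.2.2 = true := by
  intro d hd
  unfold dAll at hd
  simp only [List.mem_append] at hd
  rcases hd with hd | hd | hd | hd | hd | hd | hd | hd | hd | hd | hd | hd | hd | hd
  · exact db_ok_0 d hd
  · exact db_ok_1 d hd
  · exact db_ok_2 d hd
  · exact db_ok_3 d hd
  · exact db_ok_4 d hd
  · exact db_ok_5 d hd
  · exact db_ok_6 d hd
  · exact db_ok_7 d hd
  · exact db_ok_8 d hd
  · exact db_ok_9 d hd
  · exact db_ok_10 d hd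
  · exact db_ok_11 d hd
  · exact db_ok_12 d hd
  · exact db_ok_13 d hd

theorem dAll_map : dAll.map (fun d => (d.1, d.2.2.1)) = frAll := rfl

/-- the data are the reduced classes in their order -/
def covers : ℕ → List ℕ → List Dat → Bool
  | _, [], _ => true
  | j, r :: rs, ds => bif redF j then
      (match ds with
      | [] => false
      | d :: ds' => Nat.beq d.1 j && (Nat.beq d.2.1 r && covers (j + 1) rs ds'))
    else covers (j + 1) rs ds

theorem covers_cons (j r : ℕ) (rs : List ℕ) (ds : List Dat) :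
    covers j (r :: rs) ds = bif redF j then
      (match ds with
      | [] => false
      | d :: ds' => Nat.beq d.1 j && (Nat.beq d.2.1 r && covers (j + 1) rs ds'))
    else covers (j + 1) rs ds := rfl

theorem covers_get : ∀ {rs : List ℕ} {ds : List Dat} {j0 : ℕ}, covers j0 rs ds = true →
    ∀ {i r : ℕ}, rs[i]? = some r → redF (j0 + i) = true → ∃ d ∈ ds, d.1 = j0 + i ∧ d.2.1 = r
  | [], _, _, _, i, r, hi, _ => by
    rw [List.getElem?_nil] at hi
    exact absurd hi (by simp)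
  | r0 :: rs, ds, j0, h, i, r, hi, hr => by
    cases hj : redF j0 with
    | false =>
      have e : covers j0 (r0 :: rs) ds = covers (j0 + 1) rs ds := by
        rw [covers_cons, hj, cond_false]
      rw [e] at h
      cases i with
      | zero =>
        rw [Nat.add_zero, hj] at hr
        exact absurd hr Bool.false_ne_true
      | succ i =>
        rw [List.getElem?_cons_succ] at hi
        have h1 := covers_get h (i := i) hi (by rw [show j0 + 1 + i = j0 + (i + 1) by omega]; exact hr)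
        obtain ⟨d, hd, h2, h3⟩ := h1
        exact ⟨d, hd, by omega, h3⟩
    | true =>
      cases ds with
      | nil =>
        rw [covers_cons, hj, cond_true] at h
        exact absurd h Bool.false_ne_true
      | cons d ds =>
        have e : covers j0 (r0 :: rs) (d :: ds) =
            (Nat.beq d.1 j0 && (Nat.beq d.2.1 r0 && covers (j0 + 1) rs ds)) := by
          rw [covers_cons, hj, cond_true]
        rw [e, Bool.and_eq_true, Bool.and_eq_true, Nat.beq_eq, Nat.beq_eq] at h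
        cases i with
        | zero =>
          rw [List.getElem?_cons_zero, Option.some.injEq] at hi
          exact ⟨d, List.mem_cons_self, by rw [h.1, Nat.add_zero], by rw [h.2.1, hi]⟩
        | succ i =>
          rw [List.getElem?_cons_succ] at hi
          obtain ⟨d', hd', h2, h3⟩ := covers_get h.2.2 (i := i) hi
            (by rw [show j0 + 1 + i = j0 + (i + 1) by omega]; exact hr)
          exact ⟨d', List.mem_cons_of_mem _ hd', by omega, h3⟩

theorem dAll_covers : covers 0 repsF dAll = true := by decide +kernel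

/-- **STAGE F** from the frames of all reduced classes -/
theorem stF_fin (hcls : ClsOK 4 repsF) (h : ∀ p ∈ frAll, ∀ f ∈ p.2, FrameF repsF p.1 f) : StF := by
  refine stF_of_frames hcls fun j r hr hj => ?_
  obtain ⟨d, hd, h1, h2⟩ := covers_get dAll_covers (i := j) hr (by rw [Nat.zero_add]; exact hj)
  rw [Nat.zero_add] at h1
  refine ⟨d.2.2.1, d.2.2.2, ?_, fun f hf => ?_⟩
  · have h3 := dAll_ok d hd
    rw [h2] at h3
    exact h3
  · have h3 : (d.1, d.2.2.1) ∈ frAll := by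
      rw [← dAll_map]
      exact List.mem_map_of_mem hd
    have h4 := h _ h3 f hf
    rw [← h1]
    exact h4

end Pool.Agent.Gen.TY.FR
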